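import Pool.Agent.Q181.TG.Fin
import Pool.Agent.Q181.TG.Chain

/-!
# Torsion growth below the norm `3 / √2`

`Γ` is a torsion-free group and `ℤ[Γ]^ι → ℤ[Γ]^κ → ℤ[Γ]^θ` a part of a complex of finitely generated
free modules, with matrices `A`, `B` (for instance the cellular chain complex of the universal cover
of a closed aspherical manifold in the degrees `k + 1`, `k`, `k - 1`). For a finite `Γ`-set `X`, for
instance `X = Γ ⧸ N`, it gives a complex of free abelian groups; in the example its homology is
`H_k` of the finite cover.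
-/

set_option autoImplicit false

namespace Pool.Agent.Results.MP_98dedd_gt.LimitBelowThreshold

open Pool.Agent.Q181.TG TH57.Thr Filter Topology Matrix

/-- The order of the torsion subgroup of the homology, at the middle term, of the complex
`ℤ^(X × ι) → ℤ^(X × κ) → ℤ^(X × θ)` of the `Γ`-set `X`. -/
noncomputable def torsH {G : Type} [Group G] {ι κ θ : Type} [Fintype κ]
    (A : Matrix ι κ (MonoidAlgebra ℤ G)) (B : Matrix κ θ (MonoidAlgebra ℤ G)) (X : Type)
    [Fintype X] [MulAction G X] : ℕ :=
  tc (LinearMap.ker (reg X B).vecMulLinear ⧸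
    (Submodule.span ℤ (Set.range (reg X A))).submoduleOf (LinearMap.ker (reg X B).vecMulLinear))

/-- A decreasing chain of normal subgroups of finite index with trivial intersection. -/
def IsChain {G : Type} [Group G] (N : ℕ → Subgroup G) : Prop :=
  (∀ n, (N n).Normal) ∧ (∀ n, (N n).FiniteIndex) ∧ N 0 = ⊤ ∧ Antitone N ∧ ⨅ n, N n = ⊥

/-- Let `G` be torsion-free, `A` and `B` matrices over `ℤ[G]` with `A * B = 0` and let the `ℓ²`-norm of
`A` be less than `3 / √2`. Then the normalized torsion of the middle homology converges, along all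
Farber sequences of finite `G`-sets and all chains of normal subgroups of finite index with trivial
intersection, to `log K` for one natural number `K ≥ 1` which depends on `A` only. -/
theorem result (G : Type) [Group G] (htf : ∀ g : G, ∀ k : ℕ, 0 < k → g ^ k = 1 → g = 1)
    (ι κ : Type) [Fintype ι] [Fintype κ] [DecidableEq ι] [DecidableEq κ]
    (A : Matrix ι κ (MonoidAlgebra ℤ G)) (c : ℝ) (hc0 : 0 ≤ c) (hc : c < 3 / Real.sqrt 2)
    (hA : NormLE A c) :
    ∃ K : ℕ, 1 ≤ K ∧
      (∀ (θ : Type) [Fintype θ] (B : Matrix κ θ (MonoidAlgebra ℤ G)), A * B = 0 →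
        ∀ (X : ℕ → Type) [∀ n, Fintype (X n)] [∀ n, Nonempty (X n)] [∀ n, MulAction G (X n)],
          Far G X → Tendsto (fun n => Real.log (torsH A B (X n)) / Fintype.card (X n)) atTop
            (𝓝 (Real.log K))) ∧
      ∀ (θ : Type) [Fintype θ] (B : Matrix κ θ (MonoidAlgebra ℤ G)), A * B = 0 →
        ∀ (N : ℕ → Subgroup G) [∀ n, Fintype (G ⧸ N n)], IsChain N →
          Tendsto (fun n => Real.log (torsH A B (G ⧸ N n)) / (N n).index) atTop
            (𝓝 (Real.log K)) := by
  have key : ∀ (G : Type) [Group G] (ι κ θ : Type) [Fintype κ] [Fintype θ] 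
      (A : Matrix ι κ (MonoidAlgebra ℤ G)) (B : Matrix κ θ (MonoidAlgebra ℤ G)), A * B = 0 →
      ∀ (X : Type) [Fintype X] [MulAction G X], torsH A B X = tc (Cok (reg X A)) := by
    intro G _ ι κ θ _ _ A B hAB X _ _
    classical
    have h0 : reg X (0 : Matrix ι θ (MonoidAlgebra ℤ G)) = 0 := by
      ext p q
      simp [reg]
    exact Pool.Agent.Q66.TG.t_hom _ _ _ (reg X A) (reg X B)
      (by rw [← Pool.Agent.Q151.TG.reg_mul, hAB, h0])
  obtain ⟨K, hK, h⟩ := below G htf ι κ A c hc0 hc hA
  refine ⟨K, hK, ?_, ?_⟩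
  · intro θ _ B hAB X _ _ _ hX
    refine (h X hX).congr fun n => ?_
    rw [key G ι κ θ A B hAB (X n), Nat.card_eq_fintype_card]
  · intro θ _ B hAB N _ hN
    obtain ⟨h1, h2, -, h4, h5⟩ := hN
    have := h1
    have hX := t_chain G N h1 h2 h4 h5
    refine (h (fun n => G ⧸ N n) hX).congr fun n => ?_
    rw [key G ι κ θ A B hAB (G ⧸ N n)]
    rfl

end Pool.Agent.Results.MP_98dedd_gt.LimitBelowThreshold
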