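import Pool.Agent.Q181.TG.Fin
import Pool.Agent.Q181.TG.Chain

/-!
# Torsion growth slightly above the norm `3 / √2`

For `c > 3 / √2` every matrix over the integral group ring of any group is stably equivalent to one
of `ℓ²`-norm at most `c`, which has the same cokernels for all finite sets with an action of the group.
So the torsion growth of matrices of norm at most `c` is the torsion growth of all matrices; for the
Heisenberg group it can have any limit and no limit.
-/

set_option autoImplicit false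

namespace Pool.Agent.Results.MP_98dedd_gt.SmallNormUniversality

open Pool.Agent.Q181.TG TH57.Thr Filter Topology Matrix
open Pool.Agent.Q181.LR (Eqv)
open Pool.Agent.Helper993.HeisDet

/-- A decreasing chain of normal subgroups of finite index with trivial intersection. -/
def IsChain {G : Type} [Group G] (N : ℕ → Subgroup G) : Prop :=
  (∀ n, (N n).Normal) ∧ (∀ n, (N n).FiniteIndex) ∧ N 0 = ⊤ ∧ Antitone N ∧ ⨅ n, N n = ⊥

/-- Let `c > 3 / √2`.
1. Every matrix `A` over `ℤ[G]`, `G` any group, is stably equivalent to a matrix `B` of `ℓ²`-norm at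
   most `c` with isomorphic cokernels over all finite `G`-sets.
2. For every `N ≥ 2` there is a square matrix over the integral group ring of the Heisenberg group,
   of norm at most `c`, for which every `x` in `(0, log N]` is the limit of the normalized torsion of
   the cokernels along some chain (all cokernels being finite), and for `N = 10` there is also a
   chain without a limit. -/
theorem result (c : ℝ) (hc : 3 / Real.sqrt 2 < c) :
    (∀ (G : Type) [Group G] (ι κ : Type) [Fintype ι] [Fintype κ] [DecidableEq ι] [DecidableEq κ]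
      (A : Matrix ι κ (MonoidAlgebra ℤ G)),
      ∃ (m : ℕ) (B : Matrix (ι ⊕ Fin m) (κ ⊕ Fin m) (MonoidAlgebra ℤ G)),
        Eqv A B ∧ NormLE B c ∧ ∀ (X : Type) [Finite X] [MulAction G X],
          Nonempty (Cok (reg X B) ≃+ Cok (reg X A))) ∧
    ∀ N : ℕ, 2 ≤ N →
      ∃ (n : ℕ) (A : Matrix (Fin n) (Fin n) (MonoidAlgebra ℤ (Heis ℤ))), NormLE A c ∧
        (∀ x : ℝ, 0 < x → x ≤ Real.log N → ∃ C : ℕ → Subgroup (Heis ℤ), IsChain C ∧
          (∀ i, Finite (Cok (reg (Heis ℤ ⧸ C i) A))) ∧ Tendsto (nlog A C) atTop (𝓝 x)) ∧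
        (N = 10 → ∃ C : ℕ → Subgroup (Heis ℤ), IsChain C ∧
          (∀ i, Finite (Cok (reg (Heis ℤ ⧸ C i) A))) ∧
            ¬ ∃ x : ℝ, Tendsto (nlog A C) atTop (𝓝 x)) := by
  refine ⟨?_, ?_⟩
  · intro G _ ι κ _ _ _ _ A
    obtain ⟨C₀, hC₀⟩ := Pool.Agent.Q181.LR.upper_rect A
    obtain ⟨L₀, hL₀⟩ := exists_pow_lt_of_lt_one (sub_pos.2 hc) (by norm_num : (1 / 2 : ℝ) < 1)
    obtain ⟨m, B, hE, -, hB, -⟩ := hC₀ (L₀ + 1) (by omega)
    have hs : (0 : ℝ) ≤ 3 / Real.sqrt 2 := by positivity
    have hp : ((1 : ℝ) / 2) ^ (L₀ + 1) ≤ (1 / 2) ^ L₀ :=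
      pow_le_pow_of_le_one (by norm_num) (by norm_num) (by omega)
    have hp0 : (0 : ℝ) ≤ (1 / 2) ^ (L₀ + 1) := by positivity
    refine ⟨m, B, hE, fun x => (hB x).trans ?_, ?_⟩
    · refine mul_le_mul_of_nonneg_right ?_ (normSq_nonneg _)
      exact pow_le_pow_left₀ (by linarith) (by linarith) 2
    · intro X _ _
      exact Pool.Agent.Q151.TG.t_req G ι κ (Fin m) A B hE X
  · intro N hN
    obtain ⟨n, A, h1, h2, h3⟩ := f_neg c hc N hN
    refine ⟨n, A, h1, ?_, ?_⟩
    · intro x hx0 hx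
      obtain ⟨C, c1, c2, c3, c4, c5, c6, c7⟩ := h2 x hx0 hx
      exact ⟨C, ⟨c1, c2, c3, c4, c5⟩, c6, c7⟩
    · intro h10
      obtain ⟨C, c1, c2, c3, c4, c5, c6, c7⟩ := h3 h10
      exact ⟨C, ⟨c1, c2, c3, c4, c5⟩, c6, c7⟩

end Pool.Agent.Results.MP_98dedd_gt.SmallNormUniversality
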